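import Mathlib

set_option autoImplicit false

/-!
Definitions for the Kronecker - van der Corput hybrid sequence.
-/

namespace Pool.Agent.Lib.MP_22b8ff_nt

/-- `‖x‖`, the distance from the real number `x` to the nearest integer. -/
noncomputable def distInt (x : ℝ) : ℝ := |x - round x|

/-- The set `Bad_p`: the real numbers `α` with `inf_{q ≥ 1} q |q|_p ‖qα‖ > 0`. -/
def BadP (p : ℕ) : Set ℝ :=
  {α : ℝ | 0 < ⨅ q : ℕ+, ((q : ℕ) : ℝ) * ((padicNorm p ((q : ℕ) : ℚ) : ℚ) : ℝ) *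
    distInt (((q : ℕ) : ℝ) * α)}

/-- The van der Corput radical inverse `φ_p(n) = ∑ a_i p^{-i-1}` where `n = ∑ a_i p^i` in base
`p`: the digits are read in base `p⁻¹` and the result is divided by `p`. -/
noncomputable def vdc (p n : ℕ) : ℝ := Nat.ofDigits ((p : ℝ)⁻¹) (Nat.digits p n) / (p : ℝ)

/-- The hybrid sequence `({nα}, φ_p(n))`. -/
noncomputable def hybrid (p : ℕ) (α : ℝ) (n : ℕ) : ℝ × ℝ := (Int.fract ((n : ℝ) * α), vdc p n)

/-- The (star) discrepancy of the first `N` terms of a sequence in the unit square: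
`D_N = sup_{0 ≤ a, b ≤ 1} | #{0 ≤ n < N : s_n ∈ [0,a) × [0,b)} / N - ab |`. -/
noncomputable def discrepancy (s : ℕ → ℝ × ℝ) (N : ℕ) : ℝ :=
  ⨆ ab : Set.Icc (0 : ℝ) 1 × Set.Icc (0 : ℝ) 1,
    |(Set.ncard {n : ℕ | n < N ∧ s n ∈ Set.Ico (0 : ℝ) ab.1 ×ˢ Set.Ico (0 : ℝ) ab.2} : ℝ) / N
      - (ab.1 : ℝ) * (ab.2 : ℝ)|

/-- A sequence in the unit square has low discrepancy if `D_N = O((log N)^2 / N)`. -/
def IsLowDiscrepancy (s : ℕ → ℝ × ℝ) : Prop :=
  (fun N : ℕ => discrepancy s N) =O[Filter.atTop] (fun N : ℕ => (Real.log N) ^ 2 / N)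

end Pool.Agent.Lib.MP_22b8ff_nt
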