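import Mathlib
import Pool.Agent.Lib.MP_22b8ff_nt.Defs

set_option autoImplicit false

/-!
Discrepancy of Kronecker sequences of badly approximable numbers, with explicit constants.
-/

namespace Pool.Agent.Lib.MP_22b8ff_nt

open Finset

theorem distInt_nonneg (x : ℝ) : 0 ≤ distInt x := abs_nonneg _

theorem distInt_le (x : ℝ) (n : ℤ) : distInt x ≤ |x - n| := round_le x n

/-! ### An integer identity -/

theorem sum_emod (q : ℕ) (hq : 0 < q) (p : ℤ) (hp : IsCoprime p (q : ℤ)) (k : ℤ) :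
    ∑ m ∈ range q, (k + m * p) % (q : ℤ) = ∑ r ∈ range q, (r : ℤ) := by
  have hq' : (0 : ℤ) < q := by exact_mod_cast hq
  let g : ℕ → ℕ := fun m => ((k + m * p) % (q : ℤ)).toNat
  have hg : ∀ m, ((g m : ℕ) : ℤ) = (k + m * p) % (q : ℤ) := fun m =>
    Int.toNat_of_nonneg (Int.emod_nonneg _ hq'.ne')
  have hlt : ∀ m, g m < q := by
    intro m
    have := Int.emod_lt_of_pos (k + m * p) hq'
    rw [← hg] at this
    exact_mod_cast this
  have hinj : Set.InjOn g (range q : Finset ℕ) := by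
    intro m hm m' hm' h
    have h1 : (k + m * p) % (q : ℤ) = (k + m' * p) % (q : ℤ) := by
      rw [← hg, ← hg, h]
    have h2 : (q : ℤ) ∣ (k + m' * p) - (k + m * p) := Int.ModEq.dvd h1
    have h3 : (q : ℤ) ∣ (m' - m : ℤ) * p := by
      have : (k + m' * p) - (k + m * p) = (m' - m : ℤ) * p := by ring
      rwa [this] at h2
    have h4 : (q : ℤ) ∣ (m' - m : ℤ) := hp.symm.dvd_of_dvd_mul_right h3
    have hm1 : m < q := by simpa using hm
    have hm2 : m' < q := by simpa using hm'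
    obtain ⟨c, hc⟩ := h4
    have hc0 : c = 0 := by
      by_contra hne
      have habs : (q : ℤ) ≤ |(m' : ℤ) - m| := by
        rw [hc, abs_mul, abs_of_pos hq']
        have : 1 ≤ |c| := Int.one_le_abs hne
        nlinarith
      have : |(m' : ℤ) - m| < q := by
        rw [abs_lt]
        constructor <;> omega
      omega
    rw [hc0, mul_zero] at hc
    omega
  have himg : (range q).image g = range q := by
    apply Finset.eq_of_subset_of_card_le
    · intro x hx
      obtain ⟨m, _, rfl⟩ := Finset.mem_image.mp hx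
      exact Finset.mem_range.mpr (hlt m)
    · rw [Finset.card_image_of_injOn hinj]
  calc ∑ m ∈ range q, (k + m * p) % (q : ℤ) = ∑ m ∈ range q, ((g m : ℕ) : ℤ) := by
        apply Finset.sum_congr rfl
        intro m _
        rw [hg]
    _ = ∑ r ∈ (range q).image g, (r : ℤ) := by
        rw [Finset.sum_image hinj]
    _ = ∑ r ∈ range q, (r : ℤ) := by rw [himg]

theorem sum_ediv (q : ℕ) (hq : 0 < q) (p : ℤ) (hp : IsCoprime p (q : ℤ)) (k : ℤ) :
    ∑ m ∈ range q, (k + m * p) / (q : ℤ) = (∑ m ∈ range q, (m * p) / (q : ℤ)) + k := by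
  have hq' : (0 : ℤ) < q := by exact_mod_cast hq
  have h1 := sum_emod q hq p hp k
  have h0 := sum_emod q hq p hp 0
  have e : ∀ k : ℤ, (q : ℤ) * ∑ m ∈ range q, (k + m * p) / (q : ℤ) =
      ∑ m ∈ range q, (k + m * p) - ∑ m ∈ range q, (k + m * p) % (q : ℤ) := by
    intro k
    rw [Finset.mul_sum, ← Finset.sum_sub_distrib]
    apply Finset.sum_congr rfl
    intro m _
    have := Int.emod_add_mul_ediv (k + m * p) (q : ℤ)
    linarith
  have e1 := e k
  have e0 := e 0
  rw [h1] at e1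
  rw [h0] at e0
  rw [Finset.sum_add_distrib, Finset.sum_const, Finset.card_range, nsmul_eq_mul] at e1 e0
  simp only [mul_zero, zero_add] at e0
  have : (q : ℤ) * (∑ m ∈ range q, (k + m * p) / (q : ℤ)) =
      q * ((∑ m ∈ range q, (m * p) / (q : ℤ)) + k) := by
    rw [e1, mul_add, e0]; ring
  exact mul_left_cancel₀ hq'.ne' this

theorem sum_floor_rat (q : ℕ) (hq : 0 < q) (p : ℤ) (hp : IsCoprime p (q : ℤ)) (y : ℝ) :
    ∑ m ∈ range q, ⌊y + m * (p / q : ℝ)⌋ = (∑ m ∈ range q, (m * p) / (q : ℤ)) + ⌊q * y⌋ := by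
  rw [← sum_ediv q hq p hp]
  apply Finset.sum_congr rfl
  intro m _
  have hq' : (q : ℝ) ≠ 0 := by exact_mod_cast hq.ne'
  have : y + m * (p / q : ℝ) = (q * y + ((m * p : ℤ) : ℝ)) / (q : ℝ) := by
    push_cast
    field_simp
  rw [this, Int.floor_div_natCast, Int.floor_add_intCast]

/-! ### Counting in an interval -/

theorem floor_indicator (y a : ℝ) (ha0 : 0 ≤ a) (ha1 : a ≤ 1) :
    ⌊y⌋ - ⌊y - a⌋ = if Int.fract y < a then 1 else 0 := by
  have h1 : y - a = (⌊y⌋ : ℝ) + (Int.fract y - a) := by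
    have := Int.floor_add_fract y
    linarith
  have h2 : ⌊y - a⌋ = ⌊y⌋ + ⌊Int.fract y - a⌋ := by
    conv_lhs => rw [h1]
    rw [add_comm, Int.floor_add_intCast, add_comm]
  have hf0 := Int.fract_nonneg y
  have hf1 := Int.fract_lt_one y
  split_ifs with h
  · have : ⌊Int.fract y - a⌋ = -1 := by
      rw [Int.floor_eq_iff]
      push_cast
      constructor <;> linarith
    omega
  · have : ⌊Int.fract y - a⌋ = 0 := by
      rw [Int.floor_eq_iff]
      push_cast
      constructor <;> linarith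
    omega

/-- number of `m < M` with `{x + mβ} < a` -/
noncomputable def cnt (x β a : ℝ) (M : ℕ) : ℤ :=
  ∑ m ∈ range M, if Int.fract (x + m * β) < a then 1 else 0

theorem cnt_eq (x β a : ℝ) (ha0 : 0 ≤ a) (ha1 : a ≤ 1) (M : ℕ) :
    cnt x β a M = ∑ m ∈ range M, ⌊x + m * β⌋ - ∑ m ∈ range M, ⌊(x - a) + m * β⌋ := by
  unfold cnt
  rw [← Finset.sum_sub_distrib]
  apply Finset.sum_congr rfl
  intro m _
  rw [← floor_indicator _ a ha0 ha1]
  congr 2
  ring

theorem cnt_add (x β a : ℝ) (M M' : ℕ) :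
    cnt x β a (M + M') = cnt x β a M + cnt (x + M * β) β a M' := by
  unfold cnt
  rw [Finset.sum_range_add]
  congr 1
  apply Finset.sum_congr rfl
  intro m _
  have : x + ((M + m : ℕ) : ℝ) * β = x + M * β + m * β := by push_cast; ring
  rw [this]

theorem block_sum (q : ℕ) (hq : 0 < q) (p : ℤ) (hp : IsCoprime p (q : ℤ)) (β : ℝ)
    (hβ : ∀ m : ℕ, m < q → |m * β - m * (p / q : ℝ)| ≤ 1 / q) (y : ℝ) :
    (∑ m ∈ range q, (m * p) / (q : ℤ)) + ⌊q * y⌋ - 1 ≤ ∑ m ∈ range q, ⌊y + m * β⌋ ∧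
    ∑ m ∈ range q, ⌊y + m * β⌋ ≤ (∑ m ∈ range q, (m * p) / (q : ℤ)) + ⌊q * y⌋ + 1 := by
  have hq' : (q : ℝ) ≠ 0 := by exact_mod_cast hq.ne'
  constructor
  · have h := sum_floor_rat q hq p hp (y - 1 / q)
    have h2 : (q : ℝ) * (y - 1 / q) = q * y - 1 := by field_simp
    rw [h2, Int.floor_sub_one] at h
    calc (∑ m ∈ range q, (m * p) / (q : ℤ)) + ⌊q * y⌋ - 1
        = ∑ m ∈ range q, ⌊(y - 1 / q) + m * (p / q : ℝ)⌋ := by rw [h]; ring
      _ ≤ ∑ m ∈ range q, ⌊y + m * β⌋ := by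
        apply Finset.sum_le_sum
        intro m hm
        apply Int.floor_le_floor
        have := (abs_le.mp (hβ m (by simpa using hm))).1
        linarith
  · have h := sum_floor_rat q hq p hp (y + 1 / q)
    have h2 : (q : ℝ) * (y + 1 / q) = q * y + 1 := by field_simp
    rw [h2, Int.floor_add_one] at h
    calc ∑ m ∈ range q, ⌊y + m * β⌋ ≤ ∑ m ∈ range q, ⌊(y + 1 / q) + m * (p / q : ℝ)⌋ := by
          apply Finset.sum_le_sum
          intro m hm
          apply Int.floor_le_floor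
          have := (abs_le.mp (hβ m (by simpa using hm))).2
          linarith
      _ = (∑ m ∈ range q, (m * p) / (q : ℤ)) + ⌊q * y⌋ + 1 := by rw [h]; ring

theorem block_cnt (q : ℕ) (hq : 0 < q) (p : ℤ) (hp : IsCoprime p (q : ℤ)) (β : ℝ)
    (hβ : ∀ m : ℕ, m < q → |m * β - m * (p / q : ℝ)| ≤ 1 / q) (x a : ℝ)
    (ha0 : 0 ≤ a) (ha1 : a ≤ 1) :
    |(cnt x β a q : ℝ) - q * a| ≤ 3 := by
  obtain ⟨h1, h2⟩ := block_sum q hq p hp β hβ x
  obtain ⟨h3, h4⟩ := block_sum q hq p hp β hβ (x - a)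
  have hc := cnt_eq x β a ha0 ha1 q
  have h5 : cnt x β a q ≤ ⌊q * x⌋ - ⌊q * (x - a)⌋ + 2 := by rw [hc]; linarith
  have h6 : ⌊q * x⌋ - ⌊q * (x - a)⌋ - 2 ≤ cnt x β a q := by rw [hc]; linarith
  have h5' : (cnt x β a q : ℝ) ≤ (⌊q * x⌋ : ℝ) - (⌊q * (x - a)⌋ : ℝ) + 2 := by exact_mod_cast h5
  have h6' : (⌊q * x⌋ : ℝ) - (⌊q * (x - a)⌋ : ℝ) - 2 ≤ (cnt x β a q : ℝ) := by exact_mod_cast h6
  have f1 := Int.floor_le ((q : ℝ) * x)
  have f2 := Int.lt_floor_add_one ((q : ℝ) * x)
  have f3 := Int.floor_le ((q : ℝ) * (x - a))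
  have f4 := Int.lt_floor_add_one ((q : ℝ) * (x - a))
  rw [abs_le]
  constructor <;> nlinarith

/-- Kronecker discrepancy for badly approximable `β`. -/
theorem kronecker (c : ℝ) (hc : 0 < c) (β : ℝ)
    (hβ : ∀ m : ℕ, 1 ≤ m → c ≤ m * distInt (m * β)) (a : ℝ) (ha0 : 0 ≤ a) (ha1 : a ≤ 1) :
    ∀ (M : ℕ) (x : ℝ), |(cnt x β a M : ℝ) - M * a| ≤ 3 + 3 / c * Real.log M := by
  intro M
  induction M using Nat.strong_induction_on with
  | _ M ih =>
  intro x
  rcases Nat.eq_zero_or_pos M with hM | hM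
  · subst hM
    simp [cnt]
  obtain ⟨r, hr1, hr2⟩ := Real.exists_rat_abs_sub_le_and_den_le β hM
  set q : ℕ := r.den with hqdef
  have hq : 0 < q := r.den_pos
  have hqR : (0 : ℝ) < q := by exact_mod_cast hq
  have hMR : (0 : ℝ) < M := by exact_mod_cast hM
  have hcop : IsCoprime r.num (q : ℤ) := by
    have := r.reduced
    exact Int.isCoprime_iff_gcd_eq_one.mpr this
  have hrr : (r : ℝ) = (r.num / q : ℝ) := by
    exact_mod_cast (Rat.num_div_den r).symm
  rw [hrr] at hr1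
  have hqM : (q : ℝ) ≤ M := by exact_mod_cast hr2
  -- displacement
  have hdis : ∀ m : ℕ, m < q → |m * β - m * (r.num / q : ℝ)| ≤ 1 / q := by
    intro m hm
    have hm' : (m : ℝ) ≤ q := by exact_mod_cast hm.le
    have : m * β - m * (r.num / q : ℝ) = m * (β - r.num / q) := by ring
    rw [this, abs_mul, Nat.abs_cast]
    calc (m : ℝ) * |β - r.num / q| ≤ q * (1 / ((M + 1) * q)) := by
          apply mul_le_mul hm' hr1 (abs_nonneg _) hqR.le
      _ = 1 / (M + 1) := by field_simp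
      _ ≤ 1 / q := by
          apply one_div_le_one_div_of_le hqR
          linarith
  have hblock := block_cnt q hq r.num hcop β hdis x a ha0 ha1
  -- lower bound on q
  have hqc : c * (M + 1) ≤ q := by
    have h1 := hβ q hq
    have h2 : distInt (q * β) ≤ 1 / (M + 1) := by
      calc distInt (q * β) ≤ |q * β - r.num| := distInt_le _ _
        _ = q * |β - r.num / q| := by
            rw [← abs_of_pos hqR, ← abs_mul, abs_of_pos hqR]
            congr 1
            field_simp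
        _ ≤ q * (1 / ((M + 1) * q)) := by
            apply mul_le_mul_of_nonneg_left hr1 hqR.le
        _ = 1 / (M + 1) := by field_simp
    have h3 : c ≤ q * (1 / (M + 1)) := h1.trans (mul_le_mul_of_nonneg_left h2 hqR.le)
    rw [mul_one_div, le_div_iff₀ (by positivity)] at h3
    exact h3
  have hsplit : M = q + (M - q) := by omega
  have hc2 : (cnt x β a M : ℝ) - M * a =
      ((cnt x β a q : ℝ) - q * a) + ((cnt (x + q * β) β a (M - q) : ℝ) - ((M - q : ℕ) : ℝ) * a) := by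
    have e1 : cnt x β a M = cnt x β a q + cnt (x + q * β) β a (M - q) := by
      conv_lhs => rw [hsplit]
      rw [cnt_add]
    have e2 : (M : ℝ) = q + ((M - q : ℕ) : ℝ) := by exact_mod_cast hsplit
    rw [e1]
    conv_lhs => rw [e2]
    push_cast
    ring
  have hih := ih (M - q) (by omega) (x + q * β)
  rw [hc2]
  refine (abs_add_le _ _).trans ?_
  rcases Nat.eq_zero_or_pos (M - q) with h0 | h0
  · rw [h0]
    have : (0 : ℝ) ≤ 3 / c * Real.log M := by
      apply mul_nonneg (by positivity)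
      exact Real.log_natCast_nonneg M
    have hz : cnt (x + q * β) β a 0 = 0 := by simp [cnt]
    rw [hz]
    simp only [Int.cast_zero, Nat.cast_zero, zero_mul, sub_zero, abs_zero, add_zero]
    linarith
  · have h0R : (0 : ℝ) < ((M - q : ℕ) : ℝ) := by exact_mod_cast h0
    have e2 : ((M - q : ℕ) : ℝ) = M - q := by
      rw [Nat.cast_sub hr2]
    have hratio : ((M - q : ℕ) : ℝ) / M ≤ 1 - c := by
      rw [div_le_iff₀ hMR, e2]
      nlinarith
    have hlog : Real.log ((M - q : ℕ) : ℝ) ≤ Real.log M - c := by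
      have h1 : Real.log (((M - q : ℕ) : ℝ) / M) ≤ ((M - q : ℕ) : ℝ) / M - 1 :=
        Real.log_le_sub_one_of_pos (by positivity)
      rw [Real.log_div h0R.ne' hMR.ne'] at h1
      linarith
    have hmul : 3 / c * Real.log ((M - q : ℕ) : ℝ) ≤ 3 / c * (Real.log M - c) :=
      mul_le_mul_of_nonneg_left hlog (by positivity)
    have hcc : 3 / c * (Real.log M - c) = 3 / c * Real.log M - 3 := by
      field_simp
    linarith

end Pool.Agent.Lib.MP_22b8ff_nt
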