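import Mathlib
import Pool.Agent.Lib.MP_22b8ff_nt.Defs
import Pool.Agent.Lib.MP_22b8ff_nt.Kronecker

set_option autoImplicit false

/-!
The hybrid counting function and its recursion over the last base-`p` digit.
-/

namespace Pool.Agent.Lib.MP_22b8ff_nt

open Finset

/-! ### van der Corput -/

theorem vdc_zero (p : ℕ) : vdc p 0 = 0 := by simp [vdc, Nat.ofDigits]

theorem vdc_rec (p : ℕ) (hp : 2 ≤ p) (n : ℕ) :
    vdc p n = ((n % p : ℕ) + vdc p (n / p)) / p := by
  have hp0 : (p : ℝ) ≠ 0 := by positivity
  rcases Nat.eq_zero_or_pos n with h | h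
  · subst h
    simp [vdc_zero]
  · unfold vdc
    rw [Nat.digits_def' (by omega) h, Nat.ofDigits]
    field_simp

theorem vdc_add (p : ℕ) (hp : 2 ≤ p) (s m : ℕ) (hs : s < p) :
    vdc p (s + p * m) = (s + vdc p m) / p := by
  rw [vdc_rec p hp (s + p * m)]
  have h1 : (s + p * m) % p = s := by
    rw [Nat.add_mul_mod_self_left, Nat.mod_eq_of_lt hs]
  have h2 : (s + p * m) / p = m := by
    rw [Nat.add_mul_div_left _ _ (by omega), Nat.div_eq_of_lt hs, zero_add]
  rw [h1, h2]

theorem vdc_nonneg (p n : ℕ) : 0 ≤ vdc p n := by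
  unfold vdc
  apply div_nonneg _ (Nat.cast_nonneg _)
  generalize Nat.digits p n = L
  induction L with
  | nil => simp [Nat.ofDigits]
  | cons a t ih =>
    rw [Nat.ofDigits]
    positivity

theorem vdc_lt_one (p : ℕ) (hp : 2 ≤ p) (n : ℕ) : vdc p n < 1 := by
  induction n using Nat.strong_induction_on with
  | _ n ih =>
  rcases Nat.eq_zero_or_pos n with h | h
  · subst h; simp [vdc_zero]
  · rw [vdc_rec p hp n]
    have h1 : n / p < n := Nat.div_lt_self h (by omega)
    have h2 := ih _ h1
    have h3 : n % p < p := Nat.mod_lt _ (by omega)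
    have h4 : ((n % p : ℕ) : ℝ) + 1 ≤ p := by exact_mod_cast h3
    have hp0 : (0 : ℝ) < p := by positivity
    rw [div_lt_one hp0]
    linarith

/-! ### splitting a sum into residue classes -/

/-- number of `m` with `s + p m < N` -/
def nres (p N s : ℕ) : ℕ := (N + p - 1 - s) / p

theorem lt_nres_iff (p N s m : ℕ) (hs : s < p) : m < nres p N s ↔ s + p * m < N := by
  unfold nres
  have hp : 0 < p := by omega
  rw [Nat.lt_iff_add_one_le, Nat.le_div_iff_mul_le hp, Nat.add_mul, one_mul, mul_comm m p]
  omega

theorem sum_residues (p : ℕ) (hp : 0 < p) (N : ℕ) (f : ℕ → ℤ) :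
    ∑ n ∈ range N, f n = ∑ s ∈ range p, ∑ m ∈ range (nres p N s), f (s + p * m) := by
  have h1 : ∑ n ∈ range N, f n =
      ∑ s ∈ range p, ∑ n ∈ (range N).filter (fun n => n % p = s), f n := by
    rw [Finset.sum_fiberwise_of_maps_to]
    intro n _
    exact Finset.mem_range.mpr (Nat.mod_lt _ hp)
  rw [h1]
  apply Finset.sum_congr rfl
  intro s hs
  have hs' : s < p := Finset.mem_range.mp hs
  apply Finset.sum_nbij' (fun n => n / p) (fun m => s + p * m)
  · intro n hn
    rw [Finset.mem_filter, Finset.mem_range] at hn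
    rw [Finset.mem_range, lt_nres_iff p N s _ hs']
    have := Nat.mod_add_div n p
    rw [hn.2] at this
    omega
  · intro m hm
    rw [Finset.mem_range, lt_nres_iff p N s _ hs'] at hm
    rw [Finset.mem_filter, Finset.mem_range]
    refine ⟨hm, ?_⟩
    rw [Nat.add_mul_mod_self_left, Nat.mod_eq_of_lt hs']
  · intro n hn
    rw [Finset.mem_filter, Finset.mem_range] at hn
    have := Nat.mod_add_div n p
    rw [hn.2] at this
    exact this
  · intro m _
    rw [Nat.add_mul_div_left _ _ hp, Nat.div_eq_of_lt hs', zero_add]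
  · intro n hn
    rw [Finset.mem_filter, Finset.mem_range] at hn
    have := Nat.mod_add_div n p
    rw [hn.2] at this
    rw [this]

theorem nres_close (p N s : ℕ) (hs : s < p) : |(nres p N s : ℝ) - N / p| ≤ 1 := by
  have hp : 0 < p := by omega
  have hpR : (0 : ℝ) < p := by exact_mod_cast hp
  have h1 : nres p N s * p ≤ N + p - 1 - s := Nat.div_mul_le_self _ _
  have h2 : N + p - 1 - s < (nres p N s + 1) * p := by
    have := Nat.lt_mul_div_succ (N + p - 1 - s) hp
    rw [mul_comm] at this
    exact this
  have h1' : (nres p N s : ℝ) * p ≤ N + p := by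
    have : nres p N s * p ≤ N + p := by omega
    exact_mod_cast this
  have h2' : (N : ℝ) ≤ ((nres p N s : ℝ) + 1) * p := by
    have : N ≤ (nres p N s + 1) * p := by omega
    exact_mod_cast this
  rw [abs_le]
  constructor
  · have : (N : ℝ) / p ≤ nres p N s + 1 := by rw [div_le_iff₀ hpR]; exact h2'
    linarith
  · have : (nres p N s : ℝ) ≤ N / p + 1 := by
      rw [← sub_le_iff_le_add, le_div_iff₀ hpR]
      linarith
    linarith

theorem nres_le (p N s : ℕ) (hp : 2 ≤ p) (hN : 2 ≤ N) : 4 * nres p N s ≤ 3 * N := by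
  unfold nres
  have h1 : (N + p - 1 - s) / p ≤ (N + p - 1) / p := Nat.div_le_div_right (by omega)
  have h2 : (N + p - 1) / p = (N - 1) / p + 1 := by
    have : N + p - 1 = (N - 1) + p := by omega
    rw [this, Nat.add_div_right _ (by omega)]
  have h3 : (N - 1) / p ≤ (N - 1) / 2 := Nat.div_le_div_left hp (by norm_num)
  omega

/-! ### clamps -/

/-- `min 1 (max 0 y)` -/
noncomputable def clamp (y : ℝ) : ℝ := min 1 (max 0 y)

theorem clamp_nonneg (y : ℝ) : 0 ≤ clamp y := by
  unfold clamp
  exact le_min zero_le_one (le_max_left _ _)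

theorem clamp_le_one (y : ℝ) : clamp y ≤ 1 := min_le_left _ _

theorem sum_clamp (y : ℝ) (hy : 0 ≤ y) (k : ℕ) :
    ∑ s ∈ range k, clamp (y - s) = min y k := by
  induction k with
  | zero => simp [hy]
  | succ k ih =>
    rw [Finset.sum_range_succ, ih]
    unfold clamp
    push_cast
    rcases le_total y k with h | h
    · rw [min_eq_left h, max_eq_left (by linarith), min_eq_right zero_le_one,
        min_eq_left (by linarith)]
      ring
    · rw [min_eq_right h, max_eq_right (by linarith)]
      rcases le_total (y - k) 1 with h1 | h1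
      · rw [min_eq_right h1, min_eq_left (by linarith)]; ring
      · rw [min_eq_left h1, min_eq_right (by linarith)]

theorem lt_clamp_iff (v y : ℝ) (hv0 : 0 ≤ v) (hv1 : v < 1) : v < clamp y ↔ v < y := by
  unfold clamp
  rw [lt_min_iff, lt_max_iff]
  constructor
  · rintro ⟨_, h | h⟩
    · linarith
    · exact h
  · intro h
    exact ⟨hv1, Or.inr h⟩

/-! ### the hybrid counting function -/

/-- number of `n < N` with `{x + nα} < a` and `φ_p(n) < b` -/
noncomputable def hcnt (p : ℕ) (x α a b : ℝ) (N : ℕ) : ℤ :=
  ∑ n ∈ range N, if Int.fract (x + n * α) < a ∧ vdc p n < b then 1 else 0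

theorem hcnt_one (p : ℕ) (hp : 2 ≤ p) (x α a : ℝ) (N : ℕ) : hcnt p x α a 1 N = cnt x α a N := by
  unfold hcnt cnt
  apply Finset.sum_congr rfl
  intro n _
  simp [vdc_lt_one p hp n]

theorem hcnt_zero (p : ℕ) (x α a : ℝ) (N : ℕ) : hcnt p x α a 0 N = 0 := by
  unfold hcnt
  apply Finset.sum_eq_zero
  intro n _
  simp [not_lt.mpr (vdc_nonneg p n)]

theorem hcnt_rec (p : ℕ) (hp : 2 ≤ p) (x α a b : ℝ) (N : ℕ) :
    hcnt p x α a b N =
      ∑ s ∈ range p, hcnt p (x + s * α) (p * α) a (clamp (p * b - s)) (nres p N s) := by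
  unfold hcnt
  rw [sum_residues p (by omega) N]
  apply Finset.sum_congr rfl
  intro s hs
  have hs' : s < p := Finset.mem_range.mp hs
  apply Finset.sum_congr rfl
  intro m _
  have hpR : (0 : ℝ) < p := by positivity
  have h1 : x + ((s + p * m : ℕ) : ℝ) * α = x + s * α + m * (p * α) := by push_cast; ring
  have h2 : vdc p (s + p * m) < b ↔ vdc p m < clamp (p * b - s) := by
    rw [lt_clamp_iff _ _ (vdc_nonneg p m) (vdc_lt_one p hp m), vdc_add p hp s m hs',
      div_lt_iff₀ hpR]
    constructor <;> intro h <;> linarith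
  rw [h1]
  simp only [h2]

/-! ### badly approximable condition -/

/-- the uniform lower bound -/
def BadConst (p : ℕ) (c α : ℝ) : Prop :=
  ∀ q : ℕ, 1 ≤ q → c ≤ (q : ℝ) * ((padicNorm p (q : ℚ) : ℚ) : ℝ) * distInt ((q : ℝ) * α)

theorem badConst_of_mem (p : ℕ) (α : ℝ) (h : α ∈ BadP p) : ∃ c : ℝ, 0 < c ∧ BadConst p c α := by
  refine ⟨_, h, ?_⟩
  intro q hq
  have hbdd : BddBelow (Set.range fun q : ℕ+ =>
      ((q : ℕ) : ℝ) * ((padicNorm p ((q : ℕ) : ℚ) : ℚ) : ℝ) * distInt (((q : ℕ) : ℝ) * α)) := by
    refine ⟨0, ?_⟩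
    rintro _ ⟨q, rfl⟩
    have h1 : (0 : ℝ) ≤ ((padicNorm p ((q : ℕ) : ℚ) : ℚ) : ℝ) := by
      exact_mod_cast padicNorm.nonneg _
    have h2 := distInt_nonneg (((q : ℕ) : ℝ) * α)
    positivity
  exact ciInf_le hbdd (⟨q, hq⟩ : ℕ+)

theorem BadConst.mul_p {p : ℕ} [Fact p.Prime] {c α : ℝ} (h : BadConst p c α) :
    BadConst p c (p * α) := by
  intro q hq
  have hp : 0 < p := (Fact.out : p.Prime).pos
  have hpR : (p : ℝ) ≠ 0 := by positivity
  have h1 := h (q * p) (Nat.one_le_iff_ne_zero.mpr (by positivity))
  have h2 : ((padicNorm p ((q * p : ℕ) : ℚ) : ℚ) : ℝ) =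
      ((padicNorm p (q : ℚ) : ℚ) : ℝ) * (p : ℝ)⁻¹ := by
    push_cast
    rw [padicNorm.mul, padicNorm.padicNorm_p_of_prime]
    push_cast
    rfl
  rw [h2] at h1
  have h3 : (((q * p : ℕ) : ℝ)) * α = q * (p * α) := by push_cast; ring
  rw [h3] at h1
  have h4 : ((q * p : ℕ) : ℝ) * (((padicNorm p (q : ℚ) : ℚ) : ℝ) * (p : ℝ)⁻¹) =
      q * ((padicNorm p (q : ℚ) : ℚ) : ℝ) := by
    push_cast
    field_simp
  rw [h4] at h1
  exact h1

theorem BadConst.bad {p : ℕ} [Fact p.Prime] {c α : ℝ} (h : BadConst p c α) (m : ℕ)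
    (hm : 1 ≤ m) : c ≤ m * distInt (m * α) := by
  have h1 := h m hm
  have h2 : ((padicNorm p (m : ℚ) : ℚ) : ℝ) ≤ 1 := by
    exact_mod_cast padicNorm.of_nat m
  have h3 := distInt_nonneg ((m : ℝ) * α)
  have h4 : (0 : ℝ) ≤ m := Nat.cast_nonneg m
  calc c ≤ (m : ℝ) * ((padicNorm p (m : ℚ) : ℚ) : ℝ) * distInt ((m : ℝ) * α) := h1
    _ ≤ (m : ℝ) * 1 * distInt ((m : ℝ) * α) := by gcongr
    _ = m * distInt (m * α) := by ring

/-! ### the main induction -/

/-- The one-dimensional error bound. -/
noncomputable def errL (c : ℝ) (N : ℕ) : ℝ := 3 + 3 / c * Real.log N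

/-- The two-dimensional error bound. -/
noncomputable def errG (p : ℕ) (c : ℝ) (N : ℕ) : ℝ :=
  (p * errL c N + p) * (1 + Real.log N / Real.log (4 / 3))

theorem errL_nonneg (c : ℝ) (hc : 0 < c) (N : ℕ) : 0 ≤ errL c N := by
  unfold errL
  have := Real.log_natCast_nonneg N
  positivity

theorem errL_mono (c : ℝ) (hc : 0 < c) {M N : ℕ} (h : M ≤ N) : errL c M ≤ errL c N := by
  unfold errL
  have : Real.log M ≤ Real.log N := by
    rcases Nat.eq_zero_or_pos M with h0 | h0
    · subst h0
      simpa using Real.log_natCast_nonneg N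
    · exact Real.log_le_log (by exact_mod_cast h0) (by exact_mod_cast h)
  gcongr

theorem hybrid_bound (p : ℕ) [Fact p.Prime] (c : ℝ) (hc : 0 < c) (a : ℝ) (ha0 : 0 ≤ a)
    (ha1 : a ≤ 1) : ∀ (N : ℕ) (x α b : ℝ), BadConst p c α → 0 ≤ b → b ≤ 1 →
    |(hcnt p x α a b N : ℝ) - N * a * b| ≤ errG p c N := by
  have hp2 : 2 ≤ p := (Fact.out : p.Prime).two_le
  have hpR : (0 : ℝ) < p := by positivity
  have hlog43 : 0 < Real.log (4 / 3) := Real.log_pos (by norm_num)
  intro N
  induction N using Nat.strong_induction_on with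
  | _ N ih =>
  intro x α b hα hb0 hb1
  rcases Nat.lt_or_ge N 2 with hN | hN
  · -- N = 0 or 1
    have h4 : (1 : ℝ) ≤ errG p c N := by
      have hL := errL_nonneg c hc N
      have hlogN := Real.log_natCast_nonneg N
      have hp1 : (1 : ℝ) ≤ p := by exact_mod_cast (by omega : 1 ≤ p)
      unfold errG
      have e1 : (1 : ℝ) ≤ p * errL c N + p := by nlinarith [mul_nonneg hpR.le hL]
      have e2 : (1 : ℝ) ≤ 1 + Real.log N / Real.log (4 / 3) := by
        have := div_nonneg hlogN hlog43.le
        linarith
      nlinarith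
    interval_cases N
    · simp only [hcnt, Finset.range_zero, Finset.sum_empty, Int.cast_zero, Nat.cast_zero, zero_mul,
        sub_zero, abs_zero]
      linarith
    · refine le_trans ?_ h4
      have hab0 : 0 ≤ a * b := mul_nonneg ha0 hb0
      have hab1 : a * b ≤ 1 := mul_le_one₀ ha1 hb0 hb1
      simp only [hcnt, Finset.range_one, Finset.sum_singleton, Nat.cast_one, one_mul]
      split_ifs
      · rw [Int.cast_one, abs_le]; constructor <;> linarith
      · rw [Int.cast_zero, abs_le]; constructor <;> linarith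
  · -- N ≥ 2
    have hNR : (2 : ℝ) ≤ N := by exact_mod_cast hN
    set d : ℕ := ⌊(p : ℝ) * b⌋₊ with hd
    have hpb0 : 0 ≤ (p : ℝ) * b := by positivity
    have hd1 : (d : ℝ) ≤ p * b := Nat.floor_le hpb0
    have hd2 : (p : ℝ) * b < d + 1 := Nat.lt_floor_add_one _
    -- the individual terms
    have hterm : ∀ s ∈ range p,
        |(hcnt p (x + s * α) (p * α) a (clamp (p * b - s)) (nres p N s) : ℝ)
          - (nres p N s : ℝ) * a * clamp (p * b - s)| ≤
          errL c N + (if s = d then errG p c (nres p N s) else 0) := by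
      intro s hs
      have hs' : s < p := Finset.mem_range.mp hs
      have hle : nres p N s ≤ N := by
        have := nres_le p N s hp2 hN
        omega
      have hlt : nres p N s < N := by
        have := nres_le p N s hp2 hN
        omega
      have hL0 := errL_nonneg c hc N
      by_cases hsd : s = d
      · rw [if_pos hsd]
        have := ih (nres p N s) hlt (x + s * α) (p * α) (clamp (p * b - s)) hα.mul_p
          (clamp_nonneg _) (clamp_le_one _)
        linarith
      · rw [if_neg hsd, add_zero]
        rcases Nat.lt_or_gt_of_ne hsd with h | h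
        · -- s < d
          have h1 : (s : ℝ) + 1 ≤ d := by exact_mod_cast h
          have h2 : clamp (p * b - s) = 1 := by
            unfold clamp
            rw [max_eq_right (by linarith), min_eq_left (by linarith)]
          rw [h2, hcnt_one p hp2, mul_one]
          refine (kronecker c hc (p * α) (fun m hm => hα.mul_p.bad m hm) a ha0 ha1 _ _).trans ?_
          exact errL_mono c hc hle
        · have h1 : (d : ℝ) + 1 ≤ s := by exact_mod_cast h
          have h2 : clamp (p * b - s) = 0 := by
            unfold clamp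
            rw [max_eq_left (by linarith), min_eq_right (by norm_num)]
          rw [h2, hcnt_zero]
          simpa using hL0
    -- the recursion
    have hrec : (hcnt p x α a b N : ℝ) - N * a * b =
        ∑ s ∈ range p, ((hcnt p (x + s * α) (p * α) a (clamp (p * b - s)) (nres p N s) : ℝ)
          - (nres p N s : ℝ) * a * clamp (p * b - s)) +
        ∑ s ∈ range p, (((nres p N s : ℝ) - N / p) * (a * clamp (p * b - s))) := by
      have hsum : ∑ s ∈ range p, clamp (p * b - s) = p * b := by
        rw [sum_clamp _ hpb0, min_eq_left]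
        nlinarith
      rw [hcnt_rec p hp2 x α a b N, ← Finset.sum_add_distrib]
      push_cast
      have h3 : (N : ℝ) * a * b = ∑ s ∈ range p, (N / p : ℝ) * (a * clamp (p * b - s)) := by
        rw [← Finset.mul_sum, ← Finset.mul_sum, hsum]
        field_simp
      rw [h3, ← Finset.sum_sub_distrib]
      apply Finset.sum_congr rfl
      intro s _
      ring
    have hfirst : |∑ s ∈ range p,
        ((hcnt p (x + s * α) (p * α) a (clamp (p * b - s)) (nres p N s) : ℝ)
          - (nres p N s : ℝ) * a * clamp (p * b - s))| ≤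
        p * errL c N + (p * errL c N + p) * (Real.log N / Real.log (4 / 3)) := by
      refine (Finset.abs_sum_le_sum_abs _ _).trans ?_
      refine (Finset.sum_le_sum hterm).trans ?_
      rw [Finset.sum_add_distrib, Finset.sum_const, Finset.card_range, nsmul_eq_mul]
      have hG : ∀ s, errG p c (nres p N s) ≤
          (p * errL c N + p) * (Real.log N / Real.log (4 / 3)) := by
        intro s
        have h43 := nres_le p N s hp2 hN
        have hle : nres p N s ≤ N := by omega
        have hlog : Real.log (nres p N s) ≤ Real.log N - Real.log (4 / 3) := by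
          rw [← Real.log_div (by positivity) (by norm_num)]
          rcases Nat.eq_zero_or_pos (nres p N s) with h0 | h0
          · rw [h0, Nat.cast_zero, Real.log_zero]
            apply Real.log_nonneg
            rw [le_div_iff₀ (by norm_num)]
            linarith
          · apply Real.log_le_log (by exact_mod_cast h0)
            rw [le_div_iff₀ (by norm_num)]
            have : (4 : ℝ) * nres p N s ≤ 3 * N := by exact_mod_cast h43
            linarith
        have h5 : 1 + Real.log (nres p N s) / Real.log (4 / 3) ≤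
            Real.log N / Real.log (4 / 3) := by
          have : Real.log (nres p N s) / Real.log (4 / 3) ≤
              (Real.log N - Real.log (4 / 3)) / Real.log (4 / 3) := by gcongr
          rw [sub_div, div_self hlog43.ne'] at this
          linarith
        have h6 : 0 ≤ 1 + Real.log (nres p N s) / Real.log (4 / 3) := by
          have := Real.log_natCast_nonneg (nres p N s)
          positivity
        unfold errG
        have hLm := errL_mono c hc hle
        have hL0 := errL_nonneg c hc (nres p N s)
        apply mul_le_mul _ h5 h6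
        · have := errL_nonneg c hc N
          positivity
        · gcongr
      have hG0 : 0 ≤ (p * errL c N + p) * (Real.log N / Real.log (4 / 3)) := by
        have := errL_nonneg c hc N
        have := Real.log_natCast_nonneg N
        positivity
      have h7 : ∑ s ∈ range p, (if s = d then errG p c (nres p N s) else 0) ≤
          (p * errL c N + p) * (Real.log N / Real.log (4 / 3)) := by
        rw [Finset.sum_ite_eq']
        split_ifs
        · exact hG d
        · exact hG0
      linarith
    have hsecond : |∑ s ∈ range p, (((nres p N s : ℝ) - N / p) * (a * clamp (p * b - s)))| ≤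
        p := by
      refine (Finset.abs_sum_le_sum_abs _ _).trans ?_
      calc ∑ s ∈ range p, |((nres p N s : ℝ) - N / p) * (a * clamp (p * b - s))|
          ≤ ∑ s ∈ range p, (1 : ℝ) := by
            apply Finset.sum_le_sum
            intro s hs
            have hs' : s < p := Finset.mem_range.mp hs
            rw [abs_mul]
            have h1 := nres_close p N s hs'
            have h2 : |a * clamp (p * b - s)| ≤ 1 := by
              rw [abs_of_nonneg (mul_nonneg ha0 (clamp_nonneg _))]
              exact mul_le_one₀ ha1 (clamp_nonneg _) (clamp_le_one _)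
            calc |(nres p N s : ℝ) - N / p| * |a * clamp (p * b - s)| ≤ 1 * 1 :=
                  mul_le_mul h1 h2 (abs_nonneg _) zero_le_one
              _ = 1 := one_mul 1
        _ = p := by simp
    rw [hrec]
    refine (abs_add_le _ _).trans ?_
    unfold errG
    have : (p * errL c N + p) * (1 + Real.log N / Real.log (4 / 3)) =
      p * errL c N + (p * errL c N + p) * (Real.log N / Real.log (4 / 3)) + p := by ring
    rw [this]
    linarith

end Pool.Agent.Lib.MP_22b8ff_nt
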